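import Pool.Agent.helper12.DD.Spec2

set_option autoImplicit false

open Pool.Agent.helper49.Blk

namespace Pool.Agent.DD

theorem CLN_char_class {G : Type} [Group G] {φ : G → ℂ} (h : φ ∈ Irr G) (g x : G) :
    φ (x * g * x⁻¹) = φ g := by
  obtain ⟨V, _, _, _, ρ, hρ, rfl⟩ := h
  exact Representation.char_conj ρ g x

theorem CLN_one_ne {G : Type} [Group G] {φ : G → ℂ} (h : φ ∈ Irr G) : φ 1 ≠ 0 := by
  obtain ⟨V, _, _, _, ρ, hρ, rfl⟩ := h
  have := hρ
  rw [Representation.char_one]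
  have hn : Nontrivial V := by
    by_contra hV
    rw [not_nontrivial_iff_subsingleton] at hV
    have h1 : (⊥ : Subrepresentation ρ) = ⊤ := by
      apply Subrepresentation.toSubmodule_injective
      exact Subsingleton.elim _ _
    exact bot_ne_top h1
  have : Module.finrank ℂ V ≠ 0 := Module.finrank_pos.ne'
  exact_mod_cast this

theorem CLN_orth {A : Type} [Group A] [Fintype A] {ψ ψ' : A → ℂ} (h : ψ ∈ Irr A)
    (h' : ψ' ∈ Irr A) (hne : ∑ x : A, ψ x * ψ' x⁻¹ ≠ 0) : ψ' = ψ := by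
  obtain ⟨V, _, _, _, ρ, hρ, rfl⟩ := h
  obtain ⟨W, _, _, _, σ, hσ, rfl⟩ := h'
  by_contra hc
  exact hne ((orth ρ σ hρ hσ).1 (fun e => hc e.symm))

theorem CLN_exists {A B : Type} [Group A] [Group B] [Finite A] [Finite B] (j : A →* B)
    {φ : B → ℂ} (h : φ ∈ Irr B) : ∃ ψ ∈ Irr A, Ovr j φ ψ := by
  classical
  have := Fintype.ofFinite A
  by_contra hc
  push Not at hc
  have h1 : (fun x : A => φ (j x)) = 0 := by
    apply CPL A
    · intro g x
      simp only [map_mul, map_inv]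
      exact CLN_char_class h _ _
    · intro ψ hψ
      have h2 := hc ψ hψ
      rw [Ovr, not_not, finsum_eq_sum_of_fintype] at h2
      exact h2
  have h3 := congrFun h1 1
  simp only [map_one, Pi.zero_apply] at h3
  exact CLN_one_ne h h3

theorem CLN (hA : CLA_stmt) (hB : CLB_stmt) : CLN_stmt := by
  classical
  intro A B _ _ _ _ j hj hn q hq hc PB PA hP
  have := Fintype.ofFinite A
  have fA : (Irr A).Finite := (IRF A).1
  have fB : (Irr B).Finite := (IRF B).1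
  have hq0 : (q : ℚ) ≠ 0 := by exact_mod_cast hq.ne_zero
  -- over an invariant character there is only one
  have hu : ∀ φ ∈ Irr B, ∀ ψ ∈ Irr A, Ovr j φ ψ → Ivt j ψ → ∀ ψ' ∈ Irr A, Ovr j φ ψ' → ψ' = ψ := by
    intro φ hφ ψ hψ h1 h2 ψ' hψ' h3
    have h4 := (hA A B j hj hn q hq hc ψ hψ h2).1 φ hφ h1
    apply CLN_orth hψ hψ'
    rw [Ovr, finsum_eq_sum_of_fintype] at h3
    simpa only [h4] using h3
  let I1 : Finset (B → ℂ) := fB.toFinset.filter fun φ => PB φ ∧ ∃ ψ ∈ Irr A, Ovr j φ ψ ∧ Ivt j ψ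
  let I2 : Finset (B → ℂ) := fB.toFinset.filter fun φ => PB φ ∧ ¬ ∃ ψ ∈ Irr A, Ovr j φ ψ ∧ Ivt j ψ
  let J1 : Finset (A → ℂ) := fA.toFinset.filter fun ψ => Ivt j ψ ∧ PA ψ
  let J2 : Finset (A → ℂ) := fA.toFinset.filter fun ψ => ¬ Ivt j ψ ∧ PA ψ
  have eI : {φ | φ ∈ Irr B ∧ PB φ}.ncard = I1.card + I2.card := by
    have h1 : {φ | φ ∈ Irr B ∧ PB φ} = ((I1 ∪ I2 : Finset (B → ℂ)) : Set (B → ℂ)) := by
      ext φ
      simp only [I1, I2, Set.mem_ofPred_eq, Finset.coe_union, Finset.coe_filter, Set.mem_union,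
        Set.Finite.mem_toFinset]
      by_cases he : ∃ ψ ∈ Irr A, Ovr j φ ψ ∧ Ivt j ψ
      · simp only [he, and_true, not_true_eq_false, and_false, or_false]
      · simp only [he, and_true, not_false_eq_true, and_false, false_or]
    rw [h1, Set.ncard_coe_finset, Finset.card_union_of_disjoint]
    rw [Finset.disjoint_left]
    intro φ h2 h3
    simp only [I1, I2, Finset.mem_filter] at h2 h3
    exact h3.2.2 h2.2.2
  have eJ1 : {ψ | ψ ∈ Irr A ∧ Ivt j ψ ∧ PA ψ}.ncard = J1.card := by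
    rw [← Set.ncard_coe_finset]
    congr 1
    ext ψ
    simp [J1]
  have eJ2 : {ψ | ψ ∈ Irr A ∧ ¬ Ivt j ψ ∧ PA ψ}.ncard = J2.card := by
    rw [← Set.ncard_coe_finset]
    congr 1
    ext ψ
    simp [J2]
  -- first double counting
  have c1 := Finset.sum_card_bipartiteAbove_eq_sum_card_bipartiteBelow
    (fun (φ : B → ℂ) (ψ : A → ℂ) => Ovr j φ ψ) (s := I1) (t := J1)
  have c2 := Finset.sum_card_bipartiteAbove_eq_sum_card_bipartiteBelow
    (fun (φ : B → ℂ) (ψ : A → ℂ) => Ovr j φ ψ) (s := I2) (t := J2)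
  have a1 : ∀ φ ∈ I1, (J1.bipartiteAbove (fun φ ψ => Ovr j φ ψ) φ).card = 1 := by
    intro φ hφ
    simp only [I1, Finset.mem_filter, Set.Finite.mem_toFinset] at hφ
    obtain ⟨h1, h2, ψ, h3, h4, h5⟩ := hφ
    rw [Finset.card_eq_one]
    refine ⟨ψ, ?_⟩
    ext ψ'
    simp only [Finset.bipartiteAbove, J1, Finset.mem_filter, Set.Finite.mem_toFinset,
      Finset.mem_singleton]
    constructor
    · rintro ⟨⟨h6, -⟩, h7⟩
      exact hu φ h1 ψ h3 h4 h5 ψ' h6 h7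
    · rintro rfl
      exact ⟨⟨h3, h5, (hP φ h1 _ h3 h4).1 h2⟩, h4⟩
  have b1 : ∀ ψ ∈ J1, (I1.bipartiteBelow (fun φ ψ => Ovr j φ ψ) ψ).card = q := by
    intro ψ hψ
    simp only [J1, Finset.mem_filter, Set.Finite.mem_toFinset] at hψ
    obtain ⟨h1, h2, h3⟩ := hψ
    have h4 := (hA A B j hj hn q hq hc ψ h1 h2).2.1
    rw [← h4, ← Set.ncard_coe_finset]
    congr 1
    ext φ
    simp only [Finset.bipartiteBelow, I1, Finset.coe_filter, Finset.mem_filter,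
      Set.Finite.mem_toFinset, Set.mem_ofPred_eq]
    constructor
    · rintro ⟨⟨h5, -⟩, h6⟩
      exact ⟨h5, h6⟩
    · rintro ⟨h5, h6⟩
      exact ⟨⟨h5, (hP φ h5 ψ h1 h6).2 h3, ψ, h1, h6, h2⟩, h6⟩
  have a2 : ∀ φ ∈ I2, (J2.bipartiteAbove (fun φ ψ => Ovr j φ ψ) φ).card = q := by
    intro φ hφ
    simp only [I2, Finset.mem_filter, Set.Finite.mem_toFinset] at hφ
    obtain ⟨h1, h2, h3⟩ := hφ
    obtain ⟨ψ, h4, h5⟩ := CLN_exists j h1
    have h6 : ¬ Ivt j ψ := fun h => h3 ⟨ψ, h4, h5, h⟩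
    obtain ⟨-, h7⟩ := hB A B j hj hn q hq hc ψ h4 h6
    obtain ⟨-, -, h8, h9⟩ := h7 φ h1 h5
    rw [← h8, ← Set.ncard_coe_finset]
    congr 1
    ext ψ'
    simp only [Finset.bipartiteAbove, J2, Finset.coe_filter, Finset.mem_filter,
      Set.Finite.mem_toFinset, Set.mem_ofPred_eq]
    constructor
    · rintro ⟨⟨h10, -⟩, h11⟩
      exact ⟨h10, h11⟩
    · rintro ⟨h10, h11⟩
      exact ⟨⟨h10, (h9 ψ' h10 h11).1, (hP φ h1 ψ' h10 h11).1 h2⟩, h11⟩
  have b2 : ∀ ψ ∈ J2, (I2.bipartiteBelow (fun φ ψ => Ovr j φ ψ) ψ).card = 1 := by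
    intro ψ hψ
    simp only [J2, Finset.mem_filter, Set.Finite.mem_toFinset] at hψ
    obtain ⟨h1, h2, h3⟩ := hψ
    have h4 := (hB A B j hj hn q hq hc ψ h1 h2).1
    rw [← h4, ← Set.ncard_coe_finset]
    congr 1
    ext φ
    simp only [Finset.bipartiteBelow, I2, Finset.coe_filter, Finset.mem_filter,
      Set.Finite.mem_toFinset, Set.mem_ofPred_eq]
    constructor
    · rintro ⟨⟨h5, -⟩, h6⟩
      exact ⟨h5, h6⟩
    · rintro ⟨h5, h6⟩
      refine ⟨⟨h5, (hP φ h5 ψ h1 h6).2 h3, ?_⟩, h6⟩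
      rintro ⟨ψ', h7, h8, h9⟩
      have h10 := hu φ h5 ψ' h7 h8 h9 ψ h1 h6
      exact h2 (h10 ▸ h9)
  rw [Finset.sum_congr rfl a1, Finset.sum_congr rfl b1] at c1
  rw [Finset.sum_congr rfl a2, Finset.sum_congr rfl b2] at c2
  simp only [Finset.sum_const, smul_eq_mul, mul_one] at c1 c2
  rw [eI, eJ1, eJ2]
  have c1' : (I1.card : ℚ) = J1.card * q := by exact_mod_cast c1
  have c2' : (I2.card : ℚ) * q = J2.card := by exact_mod_cast c2
  push_cast
  rw [c1', ← c2']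
  field_simp

end Pool.Agent.DD
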